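import Pool.Agent.Lib.MP_b07157_agC4.Defs
import Pool.Agent.Lib.MP_b07157_agL3.Main2
import Pool.Agent.Lib.MP_b07157_agQ.NSQ

/-!
# Linear changes of coordinates
-/

noncomputable section

namespace MPb07157.C4

open MvPolynomial TL

/-- The substitution of the linear forms with the rows of `M` as coefficients. -/
def aM (M : Matrix (Fin 3) (Fin 3) ℂ) : MvPolynomial (Fin 3) ℂ →ₐ[ℂ] MvPolynomial (Fin 3) ℂ :=
  aeval fun i => ∑ j, C (M i j) * X j

theorem aM_comp (M N : Matrix (Fin 3) (Fin 3) ℂ) : (aM N).comp (aM M) = aM (M * N) := by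
  refine MvPolynomial.algHom_ext fun i => ?_
  rw [AlgHom.comp_apply]
  unfold aM
  rw [aeval_X, aeval_X, map_sum]
  simp only [map_mul, aeval_C, aeval_X, algebraMap_eq, Finset.mul_sum, Matrix.mul_apply, map_sum,
    Finset.sum_mul]
  rw [Finset.sum_comm]
  refine Finset.sum_congr rfl fun j _ => Finset.sum_congr rfl fun k _ => ?_
  ring

theorem aM_one : aM 1 = AlgHom.id ℂ _ := by
  refine MvPolynomial.algHom_ext fun i => ?_
  unfold aM
  rw [aeval_X, AlgHom.id_apply, Finset.sum_eq_single i]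
  · rw [Matrix.one_apply_eq, map_one, one_mul]
  · intro j _ hj
    rw [Matrix.one_apply_ne (Ne.symm hj), map_zero, zero_mul]
  · intro h
    exact absurd (Finset.mem_univ _) h

/-- The linear automorphism. -/
def eM (M N : Matrix (Fin 3) (Fin 3) ℂ) (h1 : M * N = 1) (h2 : N * M = 1) :
    MvPolynomial (Fin 3) ℂ ≃ₐ[ℂ] MvPolynomial (Fin 3) ℂ :=
  AlgEquiv.ofAlgHom (aM M) (aM N) (by rw [aM_comp, h2, aM_one]) (by rw [aM_comp, h1, aM_one])

theorem eM_apply (M N : Matrix (Fin 3) (Fin 3) ℂ) (h1 : M * N = 1) (h2 : N * M = 1)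
    (f : MvPolynomial (Fin 3) ℂ) : eM M N h1 h2 f = aM M f := rfl

theorem eM_symm_apply (M N : Matrix (Fin 3) (Fin 3) ℂ) (h1 : M * N = 1) (h2 : N * M = 1)
    (f : MvPolynomial (Fin 3) ℂ) : (eM M N h1 h2).symm f = aM N f := rfl

theorem aM_hom {M : Matrix (Fin 3) (Fin 3) ℂ} {f : MvPolynomial (Fin 3) ℂ} {d : ℕ}
    (hf : f.IsHomogeneous d) : (aM M f).IsHomogeneous d := by
  have h : (aM M f).IsHomogeneous (1 * d) := hf.aeval _ (fun i =>
    IsHomogeneous.sum _ _ _ fun j _ => (isHomogeneous_X ℂ j).C_mul _)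
  rwa [one_mul] at h

theorem constantCoeff_aM_X (M : Matrix (Fin 3) (Fin 3) ℂ) (i : Fin 3) :
    constantCoeff (aM M (X i)) = 0 := by
  unfold aM
  rw [aeval_X, map_sum]
  refine Finset.sum_eq_zero fun j _ => ?_
  rw [map_mul, constantCoeff_X, mul_zero]

/-- The matrix with the columns `P`, `q₁`, `q₂`. -/
def colM (P q₁ q₂ : Fin 3 → ℂ) : Matrix (Fin 3) (Fin 3) ℂ := Matrix.of fun i => ![P i, q₁ i, q₂ i]

theorem exists_inv {P q₁ q₂ : Fin 3 → ℂ} (h : LinearIndependent ℂ ![P, q₁, q₂]) :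
    ∃ N, colM P q₁ q₂ * N = 1 ∧ N * colM P q₁ q₂ = 1 := by
  have h1 : (Matrix.of ![P, q₁, q₂]).det ≠ 0 := by
    have h2 := Matrix.linearIndependent_rows_iff_isUnit (A := Matrix.of ![P, q₁, q₂])
    have h3 : IsUnit (Matrix.of ![P, q₁, q₂]) := h2.1 h
    exact ((Matrix.isUnit_iff_isUnit_det _).1 h3).ne_zero
  have h2 : colM P q₁ q₂ = (Matrix.of ![P, q₁, q₂]).transpose := by
    ext i j
    fin_cases j <;> rfl
  have h3 : IsUnit (colM P q₁ q₂) := by
    rw [Matrix.isUnit_iff_isUnit_det, h2, Matrix.det_transpose]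
    exact isUnit_iff_ne_zero.2 h1
  exact ⟨(colM P q₁ q₂)⁻¹, Matrix.mul_nonsing_inv _ ((Matrix.isUnit_iff_isUnit_det _).1 h3),
    Matrix.nonsing_inv_mul _ ((Matrix.isUnit_iff_isUnit_det _).1 h3)⟩

theorem Uf_aM (f : MvPolynomial (Fin 3) ℂ) (P q₁ q₂ : Fin 3 → ℂ) (a b : ℂ) :
    Uf (aM (colM P q₁ q₂) f) a b = lineP f P (a • q₁ + b • q₂) := by
  have h : (aeval ![Polynomial.X, Polynomial.C a, Polynomial.C b] :
      MvPolynomial (Fin 3) ℂ →ₐ[ℂ] Polynomial ℂ).comp (aM (colM P q₁ q₂)) =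
      aeval (fun i => Polynomial.C ((a • q₁ + b • q₂) i) + Polynomial.C (P i) * Polynomial.X) := by
    refine MvPolynomial.algHom_ext fun i => ?_
    rw [AlgHom.comp_apply]
    unfold aM colM
    rw [aeval_X, aeval_X, map_sum, Fin.sum_univ_three]
    simp only [map_mul, aeval_C, aeval_X, Matrix.of_apply, Matrix.cons_val_zero,
      Matrix.cons_val_one, Matrix.cons_val_two, Matrix.tail_cons, Matrix.head_cons, Pi.add_apply,
      Pi.smul_apply, smul_eq_mul, map_add, Polynomial.algebraMap_eq]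
    ring
  exact congrArg (fun φ => φ f) h

theorem lineP_shift (f : MvPolynomial (Fin 3) ℂ) (P q : Fin 3 → ℂ) (x : ℂ) :
    lineP f P (x • P + q) = (lineP f P q).comp (Polynomial.X + Polynomial.C x) := by
  have h : (aeval (fun i => Polynomial.C ((x • P + q) i) + Polynomial.C (P i) * Polynomial.X) :
      MvPolynomial (Fin 3) ℂ →ₐ[ℂ] Polynomial ℂ) =
      (Polynomial.aeval (Polynomial.X + Polynomial.C x : Polynomial ℂ)).comp
        (aeval (fun i => Polynomial.C (q i) + Polynomial.C (P i) * Polynomial.X)) := by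
    refine MvPolynomial.algHom_ext fun i => ?_
    rw [AlgHom.comp_apply, aeval_X, aeval_X]
    simp only [map_add, map_mul, Polynomial.aeval_C, Polynomial.aeval_X, Pi.add_apply,
      Pi.smul_apply, smul_eq_mul, Polynomial.algebraMap_eq]
    ring
  have h1 := congrArg (fun φ => φ f) h
  rw [AlgHom.comp_apply] at h1
  unfold lineP
  rw [h1, Polynomial.comp, Polynomial.aeval_def, Polynomial.algebraMap_eq]

theorem natDegree_lineP_shift (f : MvPolynomial (Fin 3) ℂ) (P q : Fin 3 → ℂ) (x : ℂ) :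
    (lineP f P (x • P + q)).natDegree = (lineP f P q).natDegree := by
  rw [lineP_shift, Polynomial.natDegree_comp, Polynomial.natDegree_X_add_C, mul_one]

/-- The degree in `X 0` bounds the degree on the lines. -/
theorem natDegree_Uf_le (g : MvPolynomial (Fin 3) ℂ) (a b : ℂ) :
    (Uf g a b).natDegree ≤ g.degreeOf 0 := by
  have h1 : Uf g a b = ∑ v ∈ g.support, Polynomial.C (coeff v g) * (Polynomial.X ^ v 0 *
      Polynomial.C a ^ v 1 * Polynomial.C b ^ v 2) := by
    unfold Uf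
    rw [aeval_def, eval₂_eq']
    refine Finset.sum_congr rfl fun v _ => ?_
    rw [Fin.prod_univ_three]
    rfl
  rw [h1]
  refine Polynomial.natDegree_sum_le_of_forall_le _ _ fun v hv => ?_
  have h2 : v 0 ≤ g.degreeOf 0 := monomial_le_degreeOf 0 hv
  have h3 : (Polynomial.C (coeff v g) * (Polynomial.X ^ v 0 *
      Polynomial.C a ^ v 1 * Polynomial.C b ^ v 2) : Polynomial ℂ) =
      Polynomial.C (coeff v g * (a ^ v 1 * b ^ v 2)) * Polynomial.X ^ v 0 := by
    simp only [map_mul, map_pow]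
    ring
  rw [h3]
  exact (Polynomial.natDegree_C_mul_X_pow_le _ _).trans h2

/-- The leading coefficient of `g` as a polynomial in `X 0`. -/
theorem exists_natDegree_Uf {g : MvPolynomial (Fin 3) ℂ} (hg : g ≠ 0) :
    ∃ a b : ℂ, (Uf g a b).natDegree = g.degreeOf 0 := by
  classical
  set N := g.degreeOf 0 with hN
  -- the coefficient of `X 0 ^ N`
  set q : MvPolynomial (Fin 3) ℂ := ∑ v ∈ g.support.filter (fun v => v 0 = N),
    monomial (v.erase 0) (coeff v g) with hq
  obtain ⟨v₀, hv₀, hv₀N⟩ : ∃ v ∈ g.support, v 0 = N := by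
    have h1 : (g.support.sup fun v => v 0) = N := by
      rw [hN, degreeOf_eq_sup]
    obtain ⟨v, hv, h2⟩ := Finset.exists_mem_eq_sup g.support (support_nonempty.2 hg)
      (fun v => v 0)
    exact ⟨v, hv, by rw [← h1]; exact h2.symm⟩
  have hinj : ∀ v : Fin 3 →₀ ℕ, v 0 = N → ∀ u : Fin 3 →₀ ℕ, u 0 = N →
      v.erase 0 = u.erase 0 → v = u := by
    intro v hv u hu h
    rw [← Finsupp.single_add_erase 0 v, ← Finsupp.single_add_erase 0 u, h, hv, hu]
  have hq0 : q ≠ 0 := by
    intro h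
    have h1 : coeff (v₀.erase 0) q = coeff v₀ g := by
      rw [hq, coeff_sum, Finset.sum_eq_single_of_mem v₀
        (Finset.mem_filter.2 ⟨hv₀, hv₀N⟩), coeff_monomial, if_pos rfl]
      intro u hu huv
      rw [coeff_monomial, if_neg]
      intro h2
      exact huv (hinj u (Finset.mem_filter.1 hu).2 v₀ hv₀N h2)
    rw [h, coeff_zero] at h1
    exact mem_support_iff.1 hv₀ h1.symm
  obtain ⟨x, hx⟩ : ∃ x : Fin 3 → ℂ, eval x q ≠ 0 := by
    by_contra hcon
    push Not at hcon
    exact hq0 (MvPolynomial.funext fun x => by rw [hcon x, map_zero])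
  refine ⟨x 1, x 2, ?_⟩
  apply le_antisymm (natDegree_Uf_le g _ _)
  apply Polynomial.le_natDegree_of_ne_zero
  have h1 : Uf g (x 1) (x 2) = ∑ v ∈ g.support, Polynomial.C (coeff v g * (x 1 ^ v 1 *
      x 2 ^ v 2)) * Polynomial.X ^ v 0 := by
    unfold Uf
    rw [aeval_def, eval₂_eq']
    refine Finset.sum_congr rfl fun v _ => ?_
    rw [Fin.prod_univ_three]
    simp only [Matrix.cons_val_zero, Matrix.cons_val_one, Matrix.cons_val_two, Matrix.tail_cons,
      Matrix.head_cons, map_mul, map_pow, Polynomial.algebraMap_eq]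
    ring
  rw [h1, Polynomial.finsetSum_coeff]
  have h2 : eval x q = ∑ v ∈ g.support, if v 0 = N then coeff v g * (x 1 ^ v 1 * x 2 ^ v 2)
      else 0 := by
    rw [hq, map_sum, Finset.sum_filter]
    refine Finset.sum_congr rfl fun v _ => ?_
    split_ifs
    · rw [eval_monomial, Finsupp.prod_fintype _ _ (fun _ => pow_zero _), Fin.prod_univ_three]
      simp [Finsupp.erase]
    · rfl
  rw [h2] at hx
  convert hx using 1
  refine Finset.sum_congr rfl fun v _ => ?_
  rw [Polynomial.coeff_C_mul, Polynomial.coeff_X_pow]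
  by_cases h : v 0 = N
  · rw [if_pos h, if_pos h.symm, mul_one]
  · rw [if_neg h, if_neg (Ne.symm h), mul_zero]

end MPb07157.C4
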