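import Mathlib

/-!
# Pencils of lines: definitions
-/

noncomputable section

namespace MPb07157

open MvPolynomial

/-- The polynomial `f(q + X P)` of one variable `X`. -/
def lineP (f : MvPolynomial (Fin 3) ℂ) (P q : Fin 3 → ℂ) : Polynomial ℂ :=
  aeval (fun i => Polynomial.C (q i) + Polynomial.C (P i) * Polynomial.X) f

/-- The line through the points `P` and `q` is contained in the curve `f = 0`, or it meets the curve
only in `P`, or it is not tangent to the curve at `P` and meets it in exactly one further point
(here `e = d - mult_P f` is the greatest degree of the polynomials `f(q + X P)`). -/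
def SpecialAt (f : MvPolynomial (Fin 3) ℂ) (P q : Fin 3 → ℂ) (e : ℕ) : Prop :=
  (lineP f P q).natDegree = 0 ∨
    ((lineP f P q).natDegree = e ∧ (lineP f P q).roots.toFinset.card = 1)

/-- The curve `f = 0` of degree `d` has a point `P` of multiplicity `d - e > 0`, different from
`d/3`, such that two lines through `P` are special, or no line through `P` which is not contained in
the curve meets it in more than two points outside `P`. -/
def CondPencil (f : MvPolynomial (Fin 3) ℂ) (d : ℕ) : Prop :=
  ∃ (P : Fin 3 → ℂ) (e : ℕ), P ≠ 0 ∧ e < d ∧ 3 * e ≠ 2 * d ∧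
    (∀ q, (lineP f P q).natDegree ≤ e) ∧ (∃ q, (lineP f P q).natDegree = e) ∧
    ((∃ q₁ q₂, LinearIndependent ℂ ![P, q₁, q₂] ∧ SpecialAt f P q₁ e ∧ SpecialAt f P q₂ e) ∨
      ∀ q, (lineP f P q).roots.toFinset.card ≤ 2)

end MPb07157
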