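import Pool.Agent.Lib.MP_b07157_agC4.Chg
import Pool.Agent.Lib.MP_b07157_agL3.Two
import Pool.Agent.Lib.MP_b07157_agR.Two1
import Pool.Agent.Lib.MP_b07157_agR.Shr1
import Pool.Agent.Lib.MP_b07157_agSH.Main
import Pool.Agent.Lib.MP_b07157_agN1.Br
import Pool.Agent.Lib.MP_b07157_agK.K2

/-!
# The pole `-3/d` and the pencil of lines through a point
-/

noncomputable section

namespace MPb07157.C4

open MvPolynomial TL

variable {f g : MvPolynomial (Fin 3) ℂ} {d : ℕ}

/-- Shear-symmetric forms are stably non-degenerate, or monoids. -/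
theorem mon_or_stable (hh : g.IsHomogeneous d) (h : Shr g) : Mon g ∨ StableLoc 3 g := by
  obtain ⟨n, c, m, κ, a, l, γ, hF, hs, hγ⟩ := h
  rcases Nat.lt_or_ge 1 n with hn | hn
  · right
    refine SH.stable_shear hh hF (fun s hs' => ?_) ?_ (fun i j => ⟨γ i j, hγ i j⟩)
    · rw [hs]
      exact monomial_le_degreeOf 0 hs'
    · have h1 : ∑ _i : Fin n, 1 ≤ ∑ i, m i := Finset.sum_le_sum fun i _ => hF.pos i
      rw [Finset.sum_const, Finset.card_univ, Fintype.card_fin, smul_eq_mul, mul_one] at h1
      omega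
  · exact Or.inl ⟨n, c, m, _, hn, hF, hs⟩

/-- The conclusion is invariant under linear changes of coordinates. -/
theorem root_of_mon_or_stable (hf : f ≠ 0) (hd : 0 < d) (hh : f.IsHomogeneous d)
    {M N : Matrix (Fin 3) (Fin 3) ℂ} (h1 : M * N = 1) (h2 : N * M = 1)
    (h : Mon (aM M f) ∨ StableLoc 3 (aM M f))
    (hp : IsPole (Zmot f) (-(3 / (d : ℚ))) ∨ IsPole (Zmot0 f) (-(3 / (d : ℚ)))) :
    IsBernsteinSatoRoot f (-(3 / (d : ℚ))) := by
  have hg0 : aM M f ≠ 0 := by
    rw [← eM_apply M N h1 h2]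
    exact (map_ne_zero_iff (eM M N h1 h2) (eM M N h1 h2).injective).2 hf
  have hgh : (aM M f).IsHomogeneous d := aM_hom hh
  have hp' : IsPole (Zmot f) (-(3 / (d : ℚ))) := by
    rcases hp with hp | hp
    · exact hp
    · exact (MN.isPole_Zmot0_iff hd hh).1 hp
  have hs : -(3 / (d : ℚ)) < 0 := by
    have h3 : 0 < 3 / (d : ℚ) := by positivity
    linarith
  have hpe : PolyEquivPow f (aM M f) 1 := by
    refine ⟨(eM M N h1 h2).symm, 1, one_ne_zero, ?_⟩
    rw [← eM_apply M N h1 h2, pow_one, map_one, one_mul, AlgEquiv.symm_apply_apply]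
  have hpg : IsPole (Zmot (aM M f)) (-(3 / (d : ℚ))) := by
    have h3 := isPole_of_polyEquivPow one_pos hpe hp'
    rwa [Nat.cast_one, one_mul] at h3
  intro b hb
  have hbg : IsBernsteinSato (aM M f) b := by
    rw [← eM_apply M N h1 h2]
    exact Alp.isBernsteinSato_equiv _ hb
  rcases h with h | h
  · obtain ⟨n, c, m, A0, hn, hF, -⟩ := h
    exact MN.root_of_fac hg0 hd hgh hn hF (Or.inl hpg) b hbg
  · refine MN.smc_of_stableLoc hg0 hd hgh h hs (Or.inl hpg) ?_
    have := InDn.toForm hbg
    rwa [toForm_C] at this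

theorem cast_s0 (d : ℕ) : ((-(3 / (d : ℚ)) : ℚ) : ℂ) = s0 d := by
  unfold s0
  push_cast
  rfl

/-- The linear change of `x_1`, `x_2` as a matrix. -/
def linM (p q r s : ℂ) : Matrix (Fin 3) (Fin 3) ℂ := !![1, 0, 0; 0, p, q; 0, r, s]

theorem lin_eq_aM (p q r s : ℂ) (g : MvPolynomial (Fin 3) ℂ) : lin p q r s g = aM (linM p q r s) g := by
  have h : lin p q r s = aM (linM p q r s) := by
    refine MvPolynomial.algHom_ext fun i => ?_
    unfold lin aM linM
    rw [aeval_X, aeval_X, Fin.sum_univ_three]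
    fin_cases i <;> simp
  rw [h]

theorem linM_mul (p q r s p' q' r' s' : ℂ) : linM p q r s * linM p' q' r' s' =
    linM (p * p' + q * r') (p * q' + q * s') (r * p' + s * r') (r * q' + s * s') := by
  unfold linM
  ext i j
  rw [Matrix.mul_apply, Fin.sum_univ_three]
  fin_cases i <;> fin_cases j <;> simp

theorem linM_one : linM 1 0 0 1 = 1 := by
  unfold linM
  ext i j
  fin_cases i <;> fin_cases j <;> simp

theorem linM_inv {p q r s : ℂ} (h : p * s - q * r ≠ 0) : ∃ N, linM p q r s * N = 1 ∧
    N * linM p q r s = 1 := by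
  refine ⟨linM (s / (p * s - q * r)) (-q / (p * s - q * r)) (-r / (p * s - q * r))
    (p / (p * s - q * r)), ?_, ?_⟩
  · rw [linM_mul, ← linM_one]
    have e1 : p * (s / (p * s - q * r)) + q * (-r / (p * s - q * r)) = 1 := by
      rw [← mul_div_assoc, ← mul_div_assoc, ← add_div, div_eq_one_iff_eq h]
      ring
    have e2 : p * (-q / (p * s - q * r)) + q * (p / (p * s - q * r)) = 0 := by
      rw [← mul_div_assoc, ← mul_div_assoc, ← add_div, div_eq_zero_iff]
      left
      ring
    have e3 : r * (s / (p * s - q * r)) + s * (-r / (p * s - q * r)) = 0 := by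
      rw [← mul_div_assoc, ← mul_div_assoc, ← add_div, div_eq_zero_iff]
      left
      ring
    have e4 : r * (-q / (p * s - q * r)) + s * (p / (p * s - q * r)) = 1 := by
      rw [← mul_div_assoc, ← mul_div_assoc, ← add_div, div_eq_one_iff_eq h]
      ring
    rw [e1, e2, e3, e4]
  · rw [linM_mul, ← linM_one]
    have e1 : s / (p * s - q * r) * p + -q / (p * s - q * r) * r = 1 := by
      rw [div_mul_eq_mul_div, div_mul_eq_mul_div, ← add_div, div_eq_one_iff_eq h]
      ring
    have e2 : s / (p * s - q * r) * q + -q / (p * s - q * r) * s = 0 := by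
      rw [div_mul_eq_mul_div, div_mul_eq_mul_div, ← add_div, div_eq_zero_iff]
      left
      ring
    have e3 : -r / (p * s - q * r) * p + p / (p * s - q * r) * r = 0 := by
      rw [div_mul_eq_mul_div, div_mul_eq_mul_div, ← add_div, div_eq_zero_iff]
      left
      ring
    have e4 : -r / (p * s - q * r) * q + p / (p * s - q * r) * s = 1 := by
      rw [div_mul_eq_mul_div, div_mul_eq_mul_div, ← add_div, div_eq_one_iff_eq h]
      ring
    rw [e1, e2, e3, e4]

/-- **The pole `-3/d`** for the curves with a point `P` as in `CondPencil`. -/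
theorem root_of_condPencil (hf : f ≠ 0) (hd : 0 < d) (hh : f.IsHomogeneous d)
    (h : CondPencil f d)
    (hp : IsPole (Zmot f) (-(3 / (d : ℚ))) ∨ IsPole (Zmot0 f) (-(3 / (d : ℚ)))) :
    IsBernsteinSatoRoot f (-(3 / (d : ℚ))) := by
  obtain ⟨P, e, hP0, hed, he2, hle, ⟨q, hq⟩, h⟩ := h
  -- the statement in suitable coordinates
  have key : ∀ q₁ q₂ : Fin 3 → ℂ, LinearIndependent ℂ ![P, q₁, q₂] →
      ((SpecialAt f P q₁ e ∧ SpecialAt f P q₂ e) ∨
        ∀ q, (lineP f P q).roots.toFinset.card ≤ 2) →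
      IsBernsteinSatoRoot f (-(3 / (d : ℚ))) := by
    intro q₁ q₂ hli h
    obtain ⟨N, h1, h2⟩ := exists_inv hli
    set M := colM P q₁ q₂ with hM
    have hgE : eM M N h1 h2 f = aM M f := rfl
    have hg0 : aM M f ≠ 0 := by
      rw [← hgE]
      exact (map_ne_zero_iff (eM M N h1 h2) (eM M N h1 h2).injective).2 hf
    have hgh : (aM M f).IsHomogeneous d := aM_hom hh
    have hdeg : (aM M f).degreeOf 0 = e := by
      apply le_antisymm
      · obtain ⟨a, b, hab⟩ := exists_natDegree_Uf hg0
        rw [← hab, hM, Uf_aM]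
        exact hle _
      · have h3 : q = (N.mulVec q 0) • P + ((N.mulVec q 1) • q₁ + (N.mulVec q 2) • q₂) := by
          have h4 : M.mulVec (N.mulVec q) = q := by
            rw [Matrix.mulVec_mulVec, h1, Matrix.one_mulVec]
          funext i
          have h5 := congrFun h4 i
          rw [Matrix.mulVec, dotProduct, Fin.sum_univ_three] at h5
          rw [← h5, hM]
          simp only [colM, Matrix.of_apply, Matrix.cons_val_zero, Matrix.cons_val_one,
            Matrix.cons_val_two, Matrix.tail_cons, Matrix.head_cons, Pi.add_apply, Pi.smul_apply,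
            smul_eq_mul]
          ring
        rw [← hq, h3, natDegree_lineP_shift, ← Uf_aM]
        exact natDegree_Uf_le _ _ _
    have hspec : ∀ a b : ℂ, SpecialAt f P (a • q₁ + b • q₂) e → SpecL (aM M f) a b := by
      intro a b hs
      unfold SpecialAt at hs
      rw [← Uf_aM] at hs
      rcases hs with hs | ⟨hs, hs'⟩
      · exact Or.inl (spec_of_natDegree hs)
      · exact Or.inr ⟨by rw [hdeg]; exact hs, hs'⟩
    intro b hb
    have hbg : IsBernsteinSato (aM M f) b := by
      rw [← hgE]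
      exact Alp.isBernsteinSato_equiv _ hb
    by_cases hcomp : NoThird (aM M f) d
    · by_contra hb0
      have hb1 : b.eval (s0 d) ≠ 0 := by rwa [← cast_s0]
      apply hb0
      rcases h with ⟨hs1, hs2⟩ | hr
      · have h3 : Shr (aM M f) ∨ Mon (aM M f) := by
          by_cases he1 : 3 * e = d
          · exact TR.shr_of_special1 hgh hg0 hd (by rw [hdeg]; exact he1)
              (hspec 0 1 (by rwa [zero_smul, one_smul, zero_add]))
              (hspec 1 0 (by rwa [zero_smul, one_smul, add_zero])) hbg hb1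
          · exact shr_of_special hgh hg0 (by rw [hdeg]; exact hed) (by rw [hdeg]; exact he1)
              (by rw [hdeg]; exact he2) (hspec 0 1 (by rwa [zero_smul, one_smul, zero_add]))
              (hspec 1 0 (by rwa [zero_smul, one_smul, add_zero])) hcomp hbg hb1
        refine root_of_mon_or_stable hf hd hh h1 h2 ?_ hp b hb
        rcases h3 with h3 | h3
        · exact mon_or_stable hgh h3
        · exact Or.inl h3
      · have h3 : Mon (aM M f) ∨ ∃ p q r s : ℂ, p * s - q * r ≠ 0 ∧ Shr (lin p q r s (aM M f)) := by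
          by_cases he1 : 3 * e = d
          · exact TR.shr_of_two1 hgh hg0 hd (by rw [hdeg]; exact he1)
              (fun a b => by rw [hM, Uf_aM]; exact hr _) hbg hb1
          · exact shr_of_two hgh hg0 (by rw [hdeg]; exact hed) (by rw [hdeg]; exact he1)
              (by rw [hdeg]; exact he2) (fun a b => by rw [hM, Uf_aM]; exact hr _) hcomp hbg hb1
        rcases h3 with h3 | ⟨p, q', r, s, hps, h3⟩
        · exact root_of_mon_or_stable hf hd hh h1 h2 (Or.inl h3) hp b hb
        · rw [lin_eq_aM, ← AlgHom.comp_apply, aM_comp] at h3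
          obtain ⟨N', h4, h5⟩ := linM_inv hps
          exact root_of_mon_or_stable hf hd hh (M := M * linM p q' r s) (N := N' * N)
            (by rw [Matrix.mul_assoc, ← Matrix.mul_assoc _ N' N, h4, Matrix.one_mul, h1])
            (by rw [Matrix.mul_assoc, ← Matrix.mul_assoc N M, h2, Matrix.one_mul, h5])
            (mon_or_stable (aM_hom hh) h3) hp b hb
    · unfold NoThird at hcomp
      push Not at hcomp
      obtain ⟨g', k, hg', hk1, hk2, hk3⟩ := hcomp
      have hk : 0 < k := by omega
      have h3 := root_of_mult hg' hk hk1 hk2 b hbg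
      have h4 : (-(3 / (d : ℚ)) : ℚ) = -(1 / (k : ℚ)) := by
        rw [← hk3]
        push_cast
        have h5 : (k : ℚ) ≠ 0 := by exact_mod_cast hk.ne'
        field_simp
      rw [h4]
      exact h3
  rcases h with ⟨q₁, q₂, hli, h1, h2⟩ | hr
  · exact key q₁ q₂ hli (Or.inl ⟨h1, h2⟩)
  · -- complete `P` to a basis
    obtain ⟨q₁, q₂, hli⟩ : ∃ q₁ q₂ : Fin 3 → ℂ, LinearIndependent ℂ ![P, q₁, q₂] := by
      obtain ⟨i, hi⟩ := Function.ne_iff.1 hP0
      simp only [Pi.zero_apply] at hi
      have hdet : ∀ a b : Fin 3 → ℂ, (Matrix.of ![P, a, b]).det ≠ 0 →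
          LinearIndependent ℂ ![P, a, b] := by
        intro a b h
        have h2 := Matrix.linearIndependent_rows_iff_isUnit (A := Matrix.of ![P, a, b])
        exact h2.2 ((Matrix.isUnit_iff_isUnit_det _).2 (isUnit_iff_ne_zero.2 h))
      fin_cases i
      · refine ⟨![0, 1, 0], ![0, 0, 1], hdet _ _ ?_⟩
        simpa [Matrix.det_fin_three] using hi
      · refine ⟨![1, 0, 0], ![0, 0, 1], hdet _ _ ?_⟩
        simpa [Matrix.det_fin_three] using hi
      · refine ⟨![1, 0, 0], ![0, 1, 0], hdet _ _ ?_⟩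
        simpa [Matrix.det_fin_three] using hi
    exact key q₁ q₂ hli (Or.inr hr)

end MPb07157.C4
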